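import Pool.Agent.H37.CNE.Stmts

/-!
# Row SLS: a spanning set of the function field of the cover
-/

set_option autoImplicit false

namespace Pool.CND

open Polynomial

/-- Elements of a simple extension are polynomials of small degree in the generator. -/
theorem sls_simple {F Ω : Type} [Field F] [Field Ω] [Algebra F Ω] (a : Ω) (n : ℕ) (P : F[X])
    (hP : P.Monic) (hn : P.natDegree = n) (hpos : 1 ≤ n) (hroot : aeval a P = 0) (z : Ω)
    (hz : z ∈ IntermediateField.adjoin F {a}) :
    ∃ c : ℕ → F, z = ∑ i ∈ Finset.range n, algebraMap F Ω (c i) * a ^ i := by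
  have halg : IsAlgebraic F a := ⟨P, hP.ne_zero, hroot⟩
  have h1 : z ∈ (IntermediateField.adjoin F {a}).toSubalgebra := hz
  rw [IntermediateField.adjoin_simple_toSubalgebra_of_isAlgebraic halg,
    Algebra.adjoin_singleton_eq_range_aeval] at h1
  obtain ⟨p, hp⟩ := h1
  have h2 : aeval a (p %ₘ P) = z := by
    rw [Polynomial.aeval_modByMonic_eq_self_of_root hroot]
    exact hp
  have h3 : (p %ₘ P).natDegree < n := by
    rw [← hn]
    refine Polynomial.natDegree_modByMonic_lt p hP ?_
    intro h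
    rw [h, Polynomial.natDegree_one] at hn
    omega
  refine ⟨fun i => (p %ₘ P).coeff i, ?_⟩
  rw [← h2, Polynomial.aeval_eq_sum_range' h3]
  exact Finset.sum_congr rfl fun i _ => Algebra.smul_def _ _

/-- row SLS -/
theorem sls_thm : S_SLS := by
  intro k Ω _ _ _ q m S x y hq hm hx h1 h2 z hz
  obtain ⟨F, hF⟩ : ∃ F : IntermediateField k Ω, F = IntermediateField.adjoin k {x} := ⟨_, rfl⟩
  have hxF : x ∈ F := by
    rw [hF]
    exact IntermediateField.mem_adjoin_simple_self k x
  -- the polynomial of `S` over `F`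
  have hSm : S ^ m ∈ F := by
    have h3 : S ^ m = (x ^ (q ^ 2) + x) / x ^ q := by
      rw [h1]
      field_simp
    rw [h3]
    exact F.div_mem (F.add_mem (pow_mem hxF _) hxF) (pow_mem hxF _)
  have hyq : y ^ q = x ^ (q - 1) * y + x⁻¹ := by
    have h4 : x * (y ^ q) = x * (x ^ (q - 1) * y + x⁻¹) := by
      have h5 : x * x ^ (q - 1) = x ^ q := by
        rw [← pow_succ']
        congr 1
        omega
      calc x * y ^ q = 1 + x ^ q * y := by
            rw [← h2]
            ring
        _ = 1 + (x * x ^ (q - 1)) * y := by rw [h5]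
        _ = x * (x ^ (q - 1) * y + x⁻¹) := by
            field_simp
            ring
    exact mul_left_cancel₀ hx h4
  obtain ⟨PS, hPS⟩ : ∃ PS : F[X], PS = Polynomial.X ^ m - Polynomial.C ⟨S ^ m, hSm⟩ := ⟨_, rfl⟩
  have hPS1 : PS.Monic := by
    rw [hPS]
    exact Polynomial.monic_X_pow_sub_C _ (by omega)
  have hPS2 : PS.natDegree = m := by
    rw [hPS]
    exact Polynomial.natDegree_X_pow_sub_C
  have hPS3 : aeval S PS = 0 := by
    rw [hPS]
    simp only [map_sub, map_pow, Polynomial.aeval_X, Polynomial.aeval_C]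
    exact sub_self (S ^ m)
  obtain ⟨K1, hK1⟩ : ∃ K1 : IntermediateField F Ω, K1 = IntermediateField.adjoin F {S} := ⟨_, rfl⟩
  have hSK : S ∈ K1 := by
    rw [hK1]
    exact IntermediateField.mem_adjoin_simple_self F S
  have hxK : x ∈ K1 := K1.algebraMap_mem ⟨x, hxF⟩
  -- the polynomial of `y` over `K1`
  obtain ⟨u, hu⟩ : ∃ u : K1, (u : Ω) = x ^ (q - 1) := ⟨⟨_, pow_mem hxK (q - 1)⟩, rfl⟩
  obtain ⟨v, hv⟩ : ∃ v : K1, (v : Ω) = x⁻¹ := ⟨⟨_, K1.inv_mem hxK⟩, rfl⟩
  obtain ⟨PY, hPY⟩ : ∃ PY : K1[X], PY = Polynomial.X ^ q - (Polynomial.C u * Polynomial.X +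
      Polynomial.C v) := ⟨_, rfl⟩
  have hPY1 : PY.Monic := by
    rw [hPY]
    exact Polynomial.monic_X_pow_sub (by
      have h6 := Polynomial.degree_linear_le (a := u) (b := v)
      refine lt_of_le_of_lt h6 ?_
      exact_mod_cast (by omega : 1 < q))
  have hPY2 : PY.natDegree = q := by
    rw [hPY]
    rw [Polynomial.natDegree_sub_eq_left_of_natDegree_lt, Polynomial.natDegree_X_pow]
    rw [Polynomial.natDegree_X_pow]
    exact lt_of_le_of_lt Polynomial.natDegree_linear_le (by omega)
  have hPY3 : aeval y PY = 0 := by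
    rw [hPY]
    simp only [map_sub, map_pow, map_add, map_mul, Polynomial.aeval_X, Polynomial.aeval_C]
    have e1 : algebraMap K1 Ω u = x ^ (q - 1) := hu
    have e2 : algebraMap K1 Ω v = x⁻¹ := hv
    rw [e1, e2, hyq]
    ring
  -- `z` is in `K1(y)`
  have hz2 : z ∈ IntermediateField.adjoin K1 {y} := by
    have : IsScalarTower k K1 Ω := IsScalarTower.of_algebraMap_eq fun r => rfl
    obtain ⟨K2, hK2⟩ : ∃ K2 : IntermediateField k Ω, K2 =
        (IntermediateField.adjoin K1 {y}).restrictScalars k := ⟨_, rfl⟩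
    have hle : IntermediateField.adjoin k {S, x, y} ≤ K2 := by
      rw [IntermediateField.adjoin_le_iff]
      intro t ht
      rw [hK2]
      show t ∈ IntermediateField.adjoin K1 {y}
      rcases ht with rfl | rfl | rfl
      · exact (IntermediateField.adjoin K1 {y}).algebraMap_mem ⟨_, hSK⟩
      · exact (IntermediateField.adjoin K1 {y}).algebraMap_mem ⟨_, hxK⟩
      · exact IntermediateField.mem_adjoin_simple_self K1 _
    have hz3 := hle hz
    rw [hK2] at hz3
    exact hz3
  obtain ⟨b, hb⟩ := sls_simple y q PY hPY1 hPY2 (by omega) hPY3 z hz2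
  have hb2 : ∀ j, ∃ c : ℕ → F, (b j : Ω) = ∑ i ∈ Finset.range m, algebraMap F Ω (c i) * S ^ i := by
    intro j
    refine sls_simple S m PS hPS1 hPS2 hm hPS3 _ ?_
    rw [← hK1]
    exact (b j).2
  choose c hc using hb2
  refine ⟨fun i j => algebraMap F Ω (c j i), fun i j => ?_, ?_⟩
  · rw [← hF]
    exact (c j i).2
  · rw [hb, Finset.sum_comm]
    rw [Finset.sum_range]
    refine Finset.sum_congr rfl fun j _ => ?_
    have e3 : algebraMap K1 Ω (b j) = ∑ i ∈ Finset.range m, algebraMap F Ω (c j i) * S ^ i := hc j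
    rw [e3, Finset.sum_range, Finset.sum_mul]

end Pool.CND
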